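import Pool.Agent.W207.SW.SpecS
import Pool.Agent.W578.PR.Dec

/-! # The gap extends -/

set_option autoImplicit false

open Filter Topology Set MeasureTheory
open scoped BigOperators FourierTransform ContDiff SchwartzMap

namespace Pool.Agent.W318.SW

open W207.PR (ct dt)
open W207.SW
open Pool.Agent.W578.PR (exists_schwartz schwartz_decay re_fourier im_fourier)

theorem decL {Λ : ℝ} {ψ : ℝ → ℝ} (hψ : TstL Λ ψ) : Continuous (dt ψ) ∧
    ∀ n : ℕ, ∃ K : ℝ, 0 < K ∧ ∀ x, |ct ψ x| * (1 + |x|) ^ n ≤ K ∧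
      |dt ψ x| * (1 + |x|) ^ n ≤ K := by
  obtain ⟨μ, -, -, hμ⟩ := hψ.supp
  obtain ⟨F, hF⟩ := exists_schwartz ψ hψ.smooth ⟨μ, hμ⟩
  obtain ⟨H, hH⟩ := exists_schwartz (fun v => 2 * Real.pi * v * ψ v)
    (fun n => (contDiff_const.mul contDiff_id).mul (hψ.smooth n))
    ⟨μ, fun x hx => by simp [hμ x hx]⟩
  have hct : ∀ x, ct ψ x = ((𝓕 F : 𝓢(ℝ, ℂ)) x).re := by
    intro x
    rw [SchwartzMap.fourier_coe, re_fourier F ψ hF x]
    rfl
  have hdt : ∀ x, dt ψ x = ((𝓕 H : 𝓢(ℝ, ℂ)) x).im := by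
    intro x
    rw [SchwartzMap.fourier_coe, im_fourier H _ hH x]
    rfl
  refine ⟨?_, fun n => ?_⟩
  · have : dt ψ = fun x => ((𝓕 H : 𝓢(ℝ, ℂ)) x).im := funext hdt
    rw [this]
    exact Complex.continuous_im.comp (𝓕 H : 𝓢(ℝ, ℂ)).continuous
  · obtain ⟨K1, hK1, h1⟩ := schwartz_decay (𝓕 F : 𝓢(ℝ, ℂ)) n
    obtain ⟨K2, hK2, h2⟩ := schwartz_decay (𝓕 H : 𝓢(ℝ, ℂ)) n
    refine ⟨max K1 K2, lt_max_of_lt_left hK1, fun x => ⟨?_, ?_⟩⟩
    · refine le_trans ?_ ((h1 x).trans (le_max_left _ _))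
      rw [hct x]
      have := Complex.abs_re_le_norm ((𝓕 F : 𝓢(ℝ, ℂ)) x)
      gcongr
    · refine le_trans ?_ ((h2 x).trans (le_max_right _ _))
      rw [hdt x]
      have := Complex.abs_im_le_norm ((𝓕 H : 𝓢(ℝ, ℂ)) x)
      gcongr

theorem tst_cont {Λ : ℝ} {ψ : ℝ → ℝ} (hψ : TstL Λ ψ) : Continuous ψ :=
  (hψ.smooth 0).continuous

theorem tst_int {Λ : ℝ} {ψ : ℝ → ℝ} (hψ : TstL Λ ψ) : Integrable ψ := by
  obtain ⟨μ, -, -, hμ⟩ := hψ.supp
  refine (tst_cont hψ).integrable_of_hasCompactSupport ?_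
  refine HasCompactSupport.intro (isCompact_Icc (a := -μ) (b := μ)) ?_
  intro x hx
  apply hμ
  by_contra h
  push Not at h
  exact hx (abs_le.1 h.le)

/-- `dt ψ · O` is integrable -/
theorem int_dtO {Λ C0 : ℝ} {ψ O : ℝ → ℝ} (hC0 : 0 < C0) (hψ : TstL Λ ψ) (hO : Gr O C0) :
    IntegrableOn (fun u => dt ψ u * O u) (Ioi 0) := by
  obtain ⟨hc, hd⟩ := decL hψ
  obtain ⟨K, hK, hKb⟩ := hd 3
  have h1 : IntegrableOn (fun u : ℝ => K * C0 * (1 + u ^ 2)⁻¹) (Ioi 0) :=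
    (integrable_inv_one_add_sq.const_mul (K * C0)).integrableOn
  refine Integrable.mono' h1 (hc.measurable.mul hO.1).aestronglyMeasurable ?_
  filter_upwards [hO.2, ae_restrict_mem measurableSet_Ioi] with u hu hu0
  have hu0' : 0 < u := hu0
  have h2 := (hKb u).2
  rw [abs_of_pos hu0'] at h2
  rw [Real.norm_eq_abs, abs_mul]
  have h3 : |dt ψ u| ≤ K / (1 + u) ^ 3 := by
    rw [le_div_iff₀ (by positivity)]
    exact h2
  calc |dt ψ u| * |O u| ≤ K / (1 + u) ^ 3 * (C0 * (1 + u)) := by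
        exact mul_le_mul h3 hu (abs_nonneg _) (by positivity)
    _ = K * C0 * ((1 + u) ^ 2)⁻¹ := by
        field_simp
    _ ≤ K * C0 * (1 + u ^ 2)⁻¹ := by
        apply mul_le_mul_of_nonneg_left _ (by positivity)
        apply inv_anti₀ (by positivity)
        nlinarith

theorem tend_exp (m : ℕ) (c B : ℝ) (hc : 0 < c) :
    Tendsto (fun R : ℝ => B * ((1 + R) ^ m * Real.exp (-(c * R)))) atTop (𝓝 0) := by
  have h1 := tendsto_rpow_mul_exp_neg_mul_atTop_nhds_zero (m : ℝ) c hc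
  have h2 : Tendsto (fun R : ℝ => 1 + R) atTop atTop := tendsto_atTop_add_const_left _ _ tendsto_id
  have h3 := (h1.comp h2).const_mul (B * Real.exp c)
  rw [mul_zero] at h3
  refine h3.congr fun R => ?_
  simp only [Function.comp, Real.rpow_natCast]
  have h4 : Real.exp (-(c * R)) = Real.exp c * Real.exp (-c * (1 + R)) := by
    rw [← Real.exp_add]
    congr 1
    ring
  rw [h4]
  ring

theorem fext : S_SML → S_FF → S_PLG → S_FEXT := by
  intro hSML hFF hPLG C0 C δ ε Λ hC0 hC hδ hε hΛ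
  obtain ⟨K1, κ, n, hK1, hκ, hS⟩ := hSML C0 C δ ε Λ hC0 hC hδ hε hΛ
  obtain ⟨KF, hKF, hF⟩ := hFF C0 C hC0 hC
  obtain ⟨r, c', K', hr, hc', hK', hP⟩ := hPLG Λ κ hΛ hκ
  refine ⟨r, hr, fun O hO hG hH ψ hψ => ?_⟩
  obtain ⟨hc, hd⟩ := decL hψ
  obtain ⟨K3, hK3, hKb⟩ := hd 2
  have hint := int_dtO hC0 hψ hO
  have hψi := tst_int hψ
  obtain ⟨μ, hμ0, hμ1, hμ⟩ := hψ.supp
  have hlim : Tendsto (fun R : ℝ => ∫ u in (0 : ℝ)..R, dt ψ u * O u) atTop
      (𝓝 (∫ u in Ioi (0 : ℝ), dt ψ u * O u)) :=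
    intervalIntegral_tendsto_integral_Ioi 0 hint tendsto_id
  set B : ℝ := ∫ ξ : ℝ, |ψ ξ| with hB
  have hB0 : 0 ≤ B := integral_nonneg fun ξ => abs_nonneg _
  -- the bound
  have hbd : ∀ R c : ℝ, 1 ≤ R → Hole O c R δ ε C → |∫ u in (0 : ℝ)..R, dt ψ u * O u| ≤
      C * K3 / (1 + R) + B * (K' * (K1 + KF)) * ((1 + R) ^ (n + 2) * Real.exp (-(c' * R))) := by
    intro R c hR hHole
    have hR0 : 0 < 1 + R := by linarith
    obtain ⟨hdiff, hgrow, hreal, hform⟩ := hF O c R hO hR hHole.1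
    rw [hform ψ (Λ + r) hψ]
    set M : ℝ := (K1 + KF) * (1 + R) ^ (n + 2) with hM
    have hM0 : 0 ≤ M := by positivity
    have h1R : (1 : ℝ) ≤ 1 + R := by linarith
    have hffr : ∀ x : ℝ, |x| ≤ Λ + r → |ffr O c R x| ≤ K' * M * Real.exp (-(c' * R)) := by
      intro x hx
      have h1 := hP R M (ff O c R) (by linarith) hM0 hdiff ?_ ?_ x hx
      · rw [hreal x, Complex.norm_real, Real.norm_eq_abs] at h1
        exact h1
      · intro z
        refine (hgrow z).trans ?_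
        have h2 : KF * (1 + R) ^ 2 ≤ M := by
          rw [hM]
          apply mul_le_mul (by linarith) _ (by positivity) (by positivity)
          exact pow_le_pow_right₀ h1R (by omega)
        gcongr
      · intro y hy
        rw [hreal y, Complex.norm_real, Real.norm_eq_abs]
        refine (hS O c R hO hG hR hHole y hy).trans ?_
        have h2 : K1 * (1 + R) ^ n ≤ M := by
          rw [hM]
          apply mul_le_mul (by linarith) _ (by positivity) (by positivity)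
          exact pow_le_pow_right₀ h1R (by omega)
        gcongr
    have hI : |∫ ξ : ℝ, ψ ξ * ffr O c R ξ| ≤ B * (K' * M * Real.exp (-(c' * R))) := by
      rw [hB, ← integral_mul_const, ← Real.norm_eq_abs]
      apply norm_integral_le_of_norm_le (hψi.abs.mul_const _)
      refine Filter.Eventually.of_forall fun ξ => ?_
      rw [Real.norm_eq_abs, abs_mul]
      rcases le_or_gt |ξ| (Λ + r) with h | h
      · exact mul_le_mul_of_nonneg_left (hffr ξ h) (abs_nonneg _)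
      · rw [hμ ξ (by linarith)]
        simp
    have hI2 : |c * ct ψ R| ≤ C * K3 / (1 + R) := by
      have h3 := (hKb R).1
      rw [abs_of_pos (show 0 < R by linarith)] at h3
      rw [abs_mul, le_div_iff₀ hR0]
      calc |c| * |ct ψ R| * (1 + R) ≤ (C * (1 + R)) * |ct ψ R| * (1 + R) := by
            have := hHole.1
            gcongr
        _ = C * (|ct ψ R| * (1 + R) ^ 2) := by ring
        _ ≤ C * K3 := by gcongr
    calc |c * ct ψ R - ∫ ξ : ℝ, ψ ξ * ffr O c R ξ|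
        ≤ |c * ct ψ R| + |∫ ξ : ℝ, ψ ξ * ffr O c R ξ| := abs_sub _ _
      _ ≤ C * K3 / (1 + R) + B * (K' * M * Real.exp (-(c' * R))) := add_le_add hI2 hI
      _ = _ := by rw [hM]; ring
  have hb : Tendsto (fun R : ℝ => C * K3 / (1 + R) +
      B * (K' * (K1 + KF)) * ((1 + R) ^ (n + 2) * Real.exp (-(c' * R)))) atTop (𝓝 0) := by
    have h2 : Tendsto (fun R : ℝ => 1 + R) atTop atTop :=
      tendsto_atTop_add_const_left _ _ tendsto_id
    have h3 := (h2.const_div_atTop (C * K3)).add (tend_exp (n + 2) c' (B * (K' * (K1 + KF))) hc')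
    rw [add_zero] at h3
    exact h3
  by_contra hne
  set I := ∫ u in Ioi (0 : ℝ), dt ψ u * O u with hIdef
  have hIpos : 0 < |I| / 2 := by
    have : 0 < |I| := abs_pos.2 hne
    linarith
  have e1 := (Metric.tendsto_nhds.1 hlim) _ hIpos
  have e2 := (Metric.tendsto_nhds.1 hb) _ hIpos
  obtain ⟨A, hA⟩ := Filter.eventually_atTop.1 (e1.and e2)
  obtain ⟨R, c, hAR, hHole⟩ := hH (max A 1)
  have hR1 : 1 ≤ R := le_trans (le_max_right _ _) hAR
  obtain ⟨g1, g2⟩ := hA R (le_trans (le_max_left _ _) hAR)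
  rw [Real.dist_eq] at g1 g2
  have g3 := hbd R c hR1 hHole
  rw [sub_zero] at g2
  have g4 := lt_of_le_of_lt (le_trans g3 (le_abs_self _)) g2
  have g5 : |I| ≤ |(∫ u in (0 : ℝ)..R, dt ψ u * O u) - I| + |∫ u in (0 : ℝ)..R, dt ψ u * O u| := by
    have := abs_sub (∫ u in (0 : ℝ)..R, dt ψ u * O u) ((∫ u in (0 : ℝ)..R, dt ψ u * O u) - I)
    rw [sub_sub_cancel] at this
    linarith
  linarith

end Pool.Agent.W318.SW
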